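import Pool.Agent.H15.FOS.Targets

set_option autoImplicit false
open MvPolynomial SC Pool.Agent.H27.LV
open Pool.Agent.H84.SM (dp cr dt)
open Pool.Agent.H92.SF Pool.Agent.H3.SF Pool.Agent.H15.FOS
namespace Pool.Agent.H91.FOS

theorem dpl_aux {k F : Type} [Field k] [Field F] [Algebra k F] (u : Fin 3 → F)
    (hu : AlgebraicIndependent k u) [FiniteDimensional (kF k u) F] (a : F) (ha : Itg k u a) :
    ∃ p : Polynomial (MvPolynomial (Fin 3) k), p.Monic ∧
      p.natDegree ≤ Module.finrank (kF k u) F ∧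
      Polynomial.eval₂ ((aeval u : MvPolynomial (Fin 3) k →ₐ[k] F) : MvPolynomial (Fin 3) k →+* F)
      a p = 0 := by
  have hmem : ∀ i, u i ∈ kF k u := fun i =>
    IntermediateField.subset_adjoin k _ ⟨i, rfl⟩
  let Ψ : MvPolynomial (Fin 3) k →ₐ[k] kF k u := aeval fun i => (⟨u i, hmem i⟩ : kF k u)
  have hΨ : ∀ p, ((Ψ p : kF k u) : F) = aeval u p := by
    intro p
    have h : (kF k u).val.comp Ψ = aeval u := by
      apply MvPolynomial.algHom_ext
      intro i
      simp [Ψ]
    exact congrArg (fun f : MvPolynomial (Fin 3) k →ₐ[k] F => f p) h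
  let i1 : Algebra (MvPolynomial (Fin 3) k) F :=
    ((aeval u : MvPolynomial (Fin 3) k →ₐ[k] F) : MvPolynomial (Fin 3) k →+* F).toAlgebra
  let i2 : Algebra (MvPolynomial (Fin 3) k) (kF k u) :=
    (Ψ : MvPolynomial (Fin 3) k →+* kF k u).toAlgebra
  have i3 : IsScalarTower (MvPolynomial (Fin 3) k) (kF k u) F :=
    IsScalarTower.of_algebraMap_eq fun p => (hΨ p).symm
  have i4 : FaithfulSMul (MvPolynomial (Fin 3) k) (kF k u) := by
    rw [faithfulSMul_iff_algebraMap_injective]
    intro p q hpq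
    apply hu
    have h : ((Ψ p : kF k u) : F) = ((Ψ q : kF k u) : F) := congrArg Subtype.val hpq
    rw [hΨ, hΨ] at h
    exact h
  have i5 : IsFractionRing (MvPolynomial (Fin 3) k) (kF k u) :=
    IsFractionRing.of_field _ _ fun ⟨z, hz⟩ => by
      obtain ⟨r, s, h⟩ := (IntermediateField.mem_adjoin_range_iff k u z).mp hz
      refine ⟨r, s, Subtype.ext ?_⟩
      exact h.trans (congrArg₂ (· / ·) (hΨ r) (hΨ s)).symm
  have ha' : IsIntegral (MvPolynomial (Fin 3) k) a := ha
  have h := minpoly.isIntegrallyClosed_eq_field_fractions' (kF k u) ha'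
  refine ⟨minpoly (MvPolynomial (Fin 3) k) a, minpoly.monic ha', ?_, minpoly.aeval _ _⟩
  have h2 := congrArg Polynomial.natDegree h
  rw [(minpoly.monic ha').natDegree_map] at h2
  rw [← h2]
  exact minpoly.natDegree_le a

theorem fos_DPL : T_DPL := by
  intro k F _ _ _ _ u δ hu hr hδ a ha
  have : FiniteDimensional (kF k u) F := Module.finite_of_finrank_pos (by omega)
  obtain ⟨p, h1, h2, h3⟩ := dpl_aux u hu a ha
  exact ⟨p, h1, hr ▸ h2, h3⟩

end Pool.Agent.H91.FOS
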