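import Pool.Agent.H15.FOS.Targets

set_option autoImplicit false
open MvPolynomial SC Pool.Agent.H27.LV
open Pool.Agent.H84.SM (dp cr dt)
open Pool.Agent.H92.SF Pool.Agent.H3.SF Pool.Agent.H15.FOS
namespace Pool.Agent.H91.FOS

theorem inv_aux {R B K : Type} [CommRing R] [CommRing B] [Field K] (Ψ : R →+* B) (φ : B →+* K)
    (b : B) (hb : φ b ≠ 0) : ∀ (n : ℕ) (P : Polynomial R), P.natDegree ≤ n →
    P.map (φ.comp Ψ) ≠ 0 → P.eval₂ (φ.comp Ψ) (φ b) = 0 →
    ∃ (b' : B) (p : R), φ (Ψ p) ≠ 0 ∧ φ b * φ b' = φ (Ψ p) := by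
  intro n
  induction n with
  | zero =>
    intro P hP h1 h2
    rw [Polynomial.eq_C_of_natDegree_le_zero hP] at h1 h2
    rw [Polynomial.eval₂_C] at h2
    rw [Polynomial.map_C, h2, map_zero] at h1
    exact absurd rfl h1
  | succ n ih =>
    intro P hP h1 h2
    have e : P = P.divX * Polynomial.X + Polynomial.C (P.coeff 0) := (Polynomial.divX_mul_X_add P).symm
    have h3 : P.eval₂ (φ.comp Ψ) (φ b) =
        P.divX.eval₂ (φ.comp Ψ) (φ b) * φ b + φ (Ψ (P.coeff 0)) := by
      conv_lhs => rw [e]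
      rw [Polynomial.eval₂_add, Polynomial.eval₂_mul, Polynomial.eval₂_X, Polynomial.eval₂_C]
      rfl
    rw [h2] at h3
    by_cases h0 : φ (Ψ (P.coeff 0)) = 0
    · rw [h0, add_zero] at h3
      have h4 : P.divX.eval₂ (φ.comp Ψ) (φ b) = 0 := by
        rcases mul_eq_zero.mp h3.symm with h | h
        · exact h
        · exact absurd h hb
      refine ih P.divX ?_ ?_ h4
      · rw [Polynomial.natDegree_divX_eq_natDegree_tsub_one]
        omega
      · intro h
        apply h1
        rw [e, Polynomial.map_add, Polynomial.map_mul, h, zero_mul, zero_add, Polynomial.map_C]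
        show Polynomial.C (φ (Ψ (P.coeff 0))) = 0
        rw [h0, map_zero]
    · refine ⟨-(P.divX.eval₂ Ψ b), P.coeff 0, h0, ?_⟩
      rw [map_neg, Polynomial.hom_eval₂]
      linear_combination h3

theorem fos_IMG : T_IMG := by
  intro k F K _ _ _ _ _ u φ hφ t
  have hu : ∀ i, Itg k u (u i) := fun i => by
    have h := ((aeval u : MvPolynomial (Fin 3) k →ₐ[k] F) : MvPolynomial (Fin 3) k →+* F).isIntegralElem_map
      (x := X i)
    simpa [Itg] using h
  let Ψ : MvPolynomial (Fin 3) k →ₐ[k] Bb k u := aeval fun i => (⟨u i, hu i⟩ : Bb k u)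
  have hΨ : ∀ p, ((Ψ p : Bb k u) : F) = aeval u p := by
    intro p
    have h : (Bb k u).val.comp Ψ = aeval u := by
      apply MvPolynomial.algHom_ext
      intro i
      simp [Ψ]
    exact congrArg (fun f : MvPolynomial (Fin 3) k →ₐ[k] F => f p) h
  have ht : t ∈ IntermediateField.adjoin k (Set.range φ) := by
    rw [hφ]; trivial
  induction ht using IntermediateField.adjoin_induction with
  | mem x hx =>
    obtain ⟨b, rfl⟩ := hx
    exact ⟨b, 1, 1, by simp, by simp, by simp⟩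
  | algebraMap x =>
    exact ⟨algebraMap k _ x, 1, 1, by simp, by simp, by simp⟩
  | add x y _ _ hx hy =>
    obtain ⟨b, c, p, h1, h2, h3⟩ := hx
    obtain ⟨b', c', p', h1', h2', h3'⟩ := hy
    refine ⟨b * c' + b' * c, c * c', p * p', ?_, ?_, ?_⟩
    · rw [map_mul, ← h1, ← h1']; rfl
    · rw [map_mul]; exact mul_ne_zero h2 h2'
    · rw [map_mul, map_add, map_mul, map_mul]
      linear_combination φ c' * h3 + φ c * h3'
  | mul x y _ _ hx hy =>
    obtain ⟨b, c, p, h1, h2, h3⟩ := hx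
    obtain ⟨b', c', p', h1', h2', h3'⟩ := hy
    refine ⟨b * b', c * c', p * p', ?_, ?_, ?_⟩
    · rw [map_mul, ← h1, ← h1']; rfl
    · rw [map_mul]; exact mul_ne_zero h2 h2'
    · rw [map_mul, map_mul]
      linear_combination y * φ c' * h3 + φ b * h3'
  | inv x _ hx =>
    obtain ⟨b, c, p, h1, h2, h3⟩ := hx
    by_cases hx0 : x = 0
    · exact ⟨0, 1, 1, by simp, by simp, by simp [hx0]⟩
    have hb : φ b ≠ 0 := by
      rw [← h3]; exact mul_ne_zero hx0 h2
    obtain ⟨P, hP, hPe⟩ := b.2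
    have hPe' : P.eval₂ (Ψ : MvPolynomial (Fin 3) k →+* Bb k u) b = 0 := by
      apply Subtype.ext
      have h := Polynomial.hom_eval₂ P (Ψ : MvPolynomial (Fin 3) k →+* Bb k u)
        ((Bb k u).val : Bb k u →+* F) b
      have h4 : (((Bb k u).val : Bb k u →+* F)).comp (Ψ : MvPolynomial (Fin 3) k →+* Bb k u) =
          ((aeval u : MvPolynomial (Fin 3) k →ₐ[k] F) : MvPolynomial (Fin 3) k →+* F) :=
        RingHom.ext fun p => hΨ p
      rw [h4] at h
      exact h.trans hPe
    obtain ⟨b', p', h5, h6⟩ := inv_aux (Ψ : MvPolynomial (Fin 3) k →+* Bb k u)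
      (φ : Bb k u →+* K) b hb P.natDegree P le_rfl (hP.map _).ne_zero (by
        have h := Polynomial.hom_eval₂ P (Ψ : MvPolynomial (Fin 3) k →+* Bb k u)
          (φ : Bb k u →+* K) b
        rw [hPe', map_zero] at h
        exact h.symm)
    refine ⟨c * b', Ψ p', p', hΨ p', h5, ?_⟩
    have h6' : φ b * φ b' = φ (Ψ p') := h6
    rw [map_mul, ← h6', ← h3]
    field_simp

end Pool.Agent.H91.FOS
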